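import Mathlib

/-! Manifolds, charts, dense copies and bounded families of functions. -/

namespace Pool.Agent.Lib.MP_034e58_gt.Th

open Set Filter

/-- A chart: an open set homeomorphic to Euclidean `n`-space. -/
def IsChart (n : ℕ) {M : Type} [TopologicalSpace M] (W : Set M) : Prop :=
  IsOpen W ∧ Nonempty (W ≃ₜ EuclideanSpace ℝ (Fin n))

/-- A connected separable `n`-manifold; second countability is not assumed. -/
def IsMfd (n : ℕ) (M : Type) [TopologicalSpace M] : Prop :=
  T2Space M ∧ ConnectedSpace M ∧ TopologicalSpace.SeparableSpace M ∧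
    ∀ x : M, ∃ W : Set M, IsChart n W ∧ x ∈ W

/-- Some dense open set is homeomorphic to `U`. -/
def DenseCopy {M : Type} [TopologicalSpace M] (U : Set M) : Prop :=
  ∃ V : Set M, IsOpen V ∧ Dense V ∧ Nonempty (U ≃ₜ V)

/-- Every family of functions `ℕ → ℕ` indexed by `ι` is eventually dominated by one function:
the cardinality of `ι` is less than the bounding number. -/
def Dominated (ι : Type) : Prop :=
  ∀ F : ι → ℕ → ℕ, ∃ g : ℕ → ℕ, ∀ i, ∀ᶠ k in atTop, F i k ≤ g k

end Pool.Agent.Lib.MP_034e58_gt.Th
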