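import Pool.Agent.Lib.MP_034e58_gt.Th.Defs

/-! Homogeneity of connected open sets of a manifold, and fingers. -/

namespace Pool.Agent.Lib.MP_034e58_gt.Th

open Set Filter Topology Metric

abbrev Eu (n : ℕ) : Type := EuclideanSpace ℝ (Fin n)

variable {n : ℕ} {M : Type} [TopologicalSpace M]

theorem IsChart.exists_emb {W : Set M} (h : IsChart n W) :
    ∃ e : Eu n → M, IsOpenEmbedding e ∧ range e = W := by
  obtain ⟨hW, ⟨f⟩⟩ := h
  refine ⟨Subtype.val ∘ f.symm, hW.isOpenEmbedding_subtypeVal.comp f.symm.isOpenEmbedding, ?_⟩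
  rw [range_comp, f.symm.surjective.range_eq, image_univ, Subtype.range_val]

theorem isChart_range {e : Eu n → M} (h : IsOpenEmbedding e) : IsChart n (range e) :=
  ⟨h.isOpen_range, ⟨h.isEmbedding.toHomeomorph.symm⟩⟩

theorem IsMfd.exists_emb (h : IsMfd n M) (x : M) :
    ∃ (e : Eu n → M) (p : Eu n), IsOpenEmbedding e ∧ e p = x := by
  obtain ⟨W, hW, hx⟩ := h.2.2.2 x
  obtain ⟨e, he, rfl⟩ := hW.exists_emb
  obtain ⟨p, rfl⟩ := hx
  exact ⟨e, p, he, rfl⟩

theorem exists_push {p q : Eu n} {R : ℝ} (h : q ∈ ball p R) :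
    ∃ k : Eu n ≃ₜ Eu n, k p = q ∧ ∀ z ∉ ball p R, k z = z := by
  have hR : 0 < R := pos_of_mem_ball h
  have hq : ‖q - p‖ < R := by rwa [mem_ball, dist_eq_norm] at h
  let φ : Eu n → ℝ := fun z => max 0 (1 - ‖z - p‖ / R)
  let c : NNReal := ⟨‖q - p‖ / R, by positivity⟩
  have hf : ApproximatesLinearOn (fun z => z + φ z • (q - p))
      ((ContinuousLinearEquiv.refl ℝ (Eu n) : Eu n ≃L[ℝ] Eu n) : Eu n →L[ℝ] Eu n) univ c := by
    intro x _ y _
    have e : x + φ x • (q - p) - (y + φ y • (q - p)) -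
        ((ContinuousLinearEquiv.refl ℝ (Eu n) : Eu n ≃L[ℝ] Eu n) : Eu n →L[ℝ] Eu n) (x - y) =
        (φ x - φ y) • (q - p) := by
      simp only [ContinuousLinearEquiv.coe_refl, ContinuousLinearMap.id_apply, sub_smul]; abel
    rw [e, norm_smul, Real.norm_eq_abs]
    have h1 : |φ x - φ y| ≤ ‖x - y‖ / R := by
      refine (abs_max_sub_max_le_max _ _ _ _).trans ?_
      rw [sub_self, abs_zero]
      refine max_le (by positivity) ?_
      have h2 := abs_norm_sub_norm_le (y - p) (x - p)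
      rw [show y - p - (x - p) = -(x - y) by abel, norm_neg] at h2
      rw [show 1 - ‖x - p‖ / R - (1 - ‖y - p‖ / R) = (‖y - p‖ - ‖x - p‖) / R by ring, abs_div,
        abs_of_pos hR]
      exact div_le_div_of_nonneg_right h2 hR.le
    calc |φ x - φ y| * ‖q - p‖ ≤ ‖x - y‖ / R * ‖q - p‖ :=
          mul_le_mul_of_nonneg_right h1 (norm_nonneg _)
      _ = (c : ℝ) * ‖x - y‖ := by show _ = ‖q - p‖ / R * ‖x - y‖; ring
  have hc : Subsingleton (Eu n) ∨
      c < ‖((ContinuousLinearEquiv.refl ℝ (Eu n)).symm : Eu n →L[ℝ] Eu n)‖₊⁻¹ := by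
    rcases subsingleton_or_nontrivial (Eu n) with hs | hs
    · exact Or.inl hs
    · right
      have : c < 1 := by
        rw [← NNReal.coe_lt_coe]; exact (div_lt_one hR).2 hq
      simpa using this
  refine ⟨hf.toHomeomorph _ hc, ?_, fun z hz => ?_⟩
  · show p + φ p • (q - p) = q
    simp [φ]
  · show z + φ z • (q - p) = z
    have : φ z = 0 := by
      rw [mem_ball, dist_eq_norm, not_lt] at hz
      exact max_eq_left (by rw [sub_nonpos, le_div_iff₀ hR]; linarith)
    rw [this, zero_smul, add_zero]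

theorem ext_cont [T2Space M] {e : Eu n → M} (he : IsOpenEmbedding e) {k : Eu n → Eu n}
    (hk : Continuous k) {p : Eu n} {R : ℝ} (h : ∀ z ∉ ball p R, k z = z) :
    Continuous (Function.extend e (e ∘ k) id) := by
  have h1 : ∀ z, Function.extend e (e ∘ k) id (e z) = e (k z) := fun z =>
    he.injective.extend_apply _ _ z
  refine continuous_iff_continuousAt.2 fun x => ?_
  by_cases hx : x ∈ e '' closedBall p R
  · obtain ⟨z, -, rfl⟩ := hx
    rw [← he.continuousAt_iff]
    rw [show Function.extend e (e ∘ k) id ∘ e = e ∘ k from funext h1]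
    exact (he.continuous.comp hk).continuousAt
  · have hc : IsClosed (e '' closedBall p R) :=
      ((isCompact_closedBall p R).image he.continuous).isClosed
    refine continuousAt_id.congr ?_
    filter_upwards [hc.isOpen_compl.mem_nhds hx] with y hy
    by_cases hy' : ∃ z, e z = y
    · obtain ⟨z, rfl⟩ := hy'
      rw [h1, h z fun hz => hy ⟨z, ball_subset_closedBall hz, rfl⟩]; rfl
    · rw [Function.extend_apply' _ _ _ hy']

theorem ext_inv {e : Eu n → M} (he : IsOpenEmbedding e) {k l : Eu n → Eu n}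
    (h : ∀ z, l (k z) = z) (x : M) :
    Function.extend e (e ∘ l) id (Function.extend e (e ∘ k) id x) = x := by
  by_cases hx : ∃ z, e z = x
  · obtain ⟨z, rfl⟩ := hx
    rw [he.injective.extend_apply, Function.comp_apply, he.injective.extend_apply,
      Function.comp_apply, h]
  · rw [Function.extend_apply' _ _ _ hx, id, Function.extend_apply' _ _ _ hx, id]

theorem exists_local [T2Space M] {e : Eu n → M} (he : IsOpenEmbedding e) {p q : Eu n} {R : ℝ}
    (h : q ∈ ball p R) : ∃ H : M ≃ₜ M, H (e p) = e q ∧ ∀ x ∉ e '' ball p R, H x = x := by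
  obtain ⟨k, hk, hk'⟩ := exists_push h
  have hk'' : ∀ z ∉ ball p R, k.symm z = z := fun z hz => by
    rw [Homeomorph.symm_apply_eq, hk' z hz]
  refine ⟨⟨⟨Function.extend e (e ∘ k) id, Function.extend e (e ∘ k.symm) id,
    ext_inv he k.symm_apply_apply, ext_inv he k.apply_symm_apply⟩,
    ext_cont he k.continuous hk', ext_cont he k.symm.continuous hk''⟩, ?_, fun x hx => ?_⟩
  · show Function.extend e (e ∘ k) id (e p) = e q
    rw [he.injective.extend_apply, Function.comp_apply, hk]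
  · show Function.extend e (e ∘ k) id x = x
    by_cases hx' : ∃ z, e z = x
    · obtain ⟨z, rfl⟩ := hx'
      rw [he.injective.extend_apply, Function.comp_apply, hk' z fun hz => hx ⟨z, hz, rfl⟩]
    · rw [Function.extend_apply' _ _ _ hx', id]

/-- Homogeneity with support in a connected open set. -/
theorem IsMfd.exists_homeo (hM : IsMfd n M) {W : Set M} (hW : IsOpen W) (hc : IsPreconnected W)
    {x y : M} (hx : x ∈ W) (hy : y ∈ W) : ∃ H : M ≃ₜ M, H x = y ∧ ∀ z ∉ W, H z = z := by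
  have := hM.1
  refine hc.induction₂' (fun a b => ∃ H : M ≃ₜ M, H a = b ∧ ∀ z ∉ W, H z = z) ?_ ?_ hx hy
  · intro a ha
    obtain ⟨e, p, he, rfl⟩ := hM.exists_emb a
    obtain ⟨R, hR, hb⟩ := Metric.isOpen_iff.1 (hW.preimage he.continuous) p ha
    refine mem_nhdsWithin_of_mem_nhds ?_
    filter_upwards [he.image_mem_nhds.2 (ball_mem_nhds p hR)]
    rintro _ ⟨q, hq, rfl⟩
    obtain ⟨H, h1, h2⟩ := exists_local he hq
    have h3 : ∀ z ∉ W, H z = z := fun z hz => h2 z (by rintro ⟨w, hw, rfl⟩; exact hz (hb hw))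
    exact ⟨⟨H, h1, h3⟩, H.symm, by rw [Homeomorph.symm_apply_eq, h1],
      fun z hz => by rw [Homeomorph.symm_apply_eq, h3 z hz]⟩
  · rintro a b c - - - ⟨H, h1, h2⟩ ⟨G, h3, h4⟩
    exact ⟨H.trans G, by simp [h1, h3], fun z hz => by simp [h2 z hz, h4 z hz]⟩

theorem IsMfd.locConn (hM : IsMfd n M) : LocallyConnectedSpace M := by
  refine locallyConnectedSpace_iff_subsets_isOpen_isConnected.2 fun x U hU => ?_
  obtain ⟨e, p, he, rfl⟩ := hM.exists_emb x
  obtain ⟨R, hR, hb⟩ := Metric.mem_nhds_iff.1 (he.continuous.continuousAt.preimage_mem_nhds hU)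
  exact ⟨e '' ball p R, image_subset_iff.2 hb, he.isOpenMap _ isOpen_ball,
    ⟨p, mem_ball_self hR, rfl⟩, (isConnected_ball hR).image _ he.continuous.continuousOn⟩

/-- A finger from the open set `G` to the point `d`. -/
theorem IsMfd.finger (hM : IsMfd n M) {G : Set M} (hG : IsOpen G) (hne : G.Nonempty) (d : M) :
    ∃ h : ℕ → M ≃ₜ M, (∀ m, d ∈ h m '' G) ∧
      ∀ K : Set M, IsCompact K → K ⊆ G → ∀ᶠ m in atTop, ∀ z ∈ K, h m z = z := by
  have := hM.1
  have := hM.2.1
  have := hM.locConn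
  by_cases hd : d ∈ G
  · exact ⟨fun _ => Homeomorph.refl M, fun _ => ⟨d, hd, rfl⟩,
      fun K _ _ => Eventually.of_forall fun _ _ _ => rfl⟩
  obtain ⟨p, W, hp, hpG, hWo, hWc, hWG, hW⟩ : ∃ (p : M) (W : Set M), p ∈ closure G ∧ p ∉ G ∧
      IsOpen W ∧ IsPreconnected W ∧ Disjoint W G ∧ (p = d ∨ d ∈ W ∧ p ∈ closure W) := by
    by_cases hd' : d ∈ closure G
    · exact ⟨d, ∅, hd', hd, isOpen_empty, isPreconnected_empty, empty_disjoint _, Or.inl rfl⟩
    · have ho : IsOpen (closure G)ᶜ := isClosed_closure.isOpen_compl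
      have hs := connectedComponentIn_subset (closure G)ᶜ d
      have hdis : Disjoint (connectedComponentIn (closure G)ᶜ d) G :=
        disjoint_left.2 fun z hz hz' => hs hz (subset_closure hz')
      have hmem := mem_connectedComponentIn (F := (closure G)ᶜ) hd'
      obtain ⟨p, hp⟩ : (frontier (connectedComponentIn (closure G)ᶜ d)).Nonempty := by
        refine nonempty_frontier_iff.2 ⟨⟨d, hmem⟩, fun hu => ?_⟩
        obtain ⟨g, hg⟩ := hne
        exact disjoint_left.1 hdis (hu ▸ mem_univ g) hg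
      rw [ho.connectedComponentIn.frontier_eq] at hp
      refine ⟨p, _, ?_, fun hpG => ?_, ho.connectedComponentIn, isPreconnected_connectedComponentIn,
        hdis, Or.inr ⟨hmem, hp.1⟩⟩
      · by_contra hc
        refine hp.2 ((isPreconnected_connectedComponentIn.subset_closure
          (t := insert p (connectedComponentIn (closure G)ᶜ d)) (subset_insert _ _)
          (insert_subset hp.1 subset_closure)).subset_connectedComponentIn (Or.inr hmem)
          (insert_subset hc hs) (mem_insert _ _))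
      · exact disjoint_left.1 (hdis.closure_left hG) hp.1 hpG
  obtain ⟨e, q, he, rfl⟩ := hM.exists_emb p
  have key : ∀ m : ℕ, ∃ h : M ≃ₜ M, d ∈ h '' G ∧
      ∀ z ∈ G, z ∉ e '' ball q (1 / ((m : ℝ) + 1)) → h z = z := by
    intro m
    have hr : 0 < 1 / ((m : ℝ) + 1) := by positivity
    have hBo : IsOpen (e '' ball q (1 / ((m : ℝ) + 1))) := he.isOpenMap _ isOpen_ball
    have hBc : IsPreconnected (e '' ball q (1 / ((m : ℝ) + 1))) :=
      (isConnected_ball hr).isPreconnected.image _ he.continuous.continuousOn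
    have hq : e q ∈ e '' ball q (1 / ((m : ℝ) + 1)) := ⟨q, mem_ball_self hr, rfl⟩
    obtain ⟨g, hg1, hg2⟩ := mem_closure_iff.1 hp _ hBo hq
    rcases hW with rfl | ⟨h1, h2⟩
    · obtain ⟨H, h3, h4⟩ := hM.exists_homeo hBo hBc hg1 hq
      exact ⟨H, ⟨g, hg2, h3⟩, fun z _ hz => h4 z hz⟩
    · obtain ⟨w, hw1, hw2⟩ := mem_closure_iff.1 h2 _ hBo hq
      obtain ⟨H, h3, h4⟩ := hM.exists_homeo (hBo.union hWo) (hBc.union w hw1 hw2 hWc)
        (Or.inl hg1) (Or.inr h1)
      exact ⟨H, ⟨g, hg2, h3⟩, fun z hz hz' => h4 z fun h5 =>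
        h5.elim hz' fun h6 => disjoint_left.1 hWG h6 hz⟩
  choose h h1 h2 using key
  refine ⟨h, h1, fun K hK hKG => ?_⟩
  obtain ⟨R, hR, hb⟩ := Metric.isOpen_iff.1 (hK.isClosed.isOpen_compl.preimage he.continuous) q
    fun hq => hpG (hKG hq)
  filter_upwards [tendsto_one_div_add_atTop_nhds_zero_nat.eventually (gt_mem_nhds hR)] with m hm
  intro z hz
  refine h2 m z (hKG hz) ?_
  rintro ⟨w, hw, rfl⟩
  exact hb (ball_subset_ball hm.le hw) hz

end Pool.Agent.Lib.MP_034e58_gt.Th
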