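import Pool.Agent.Lib.MP_034e58_gt.Th.Hom
import Pool.Agent.Lib.MP_034e58_gt.Main

/-! The counterexample in every dimension at least two. -/

namespace Pool.Agent.Lib.MP_034e58_gt.Th

open Set Filter Topology Metric Cardinal

variable {S : Set (ℝ → ℝ)} {k : ℕ}

/-- A dense sequence that repeats each of its terms infinitely often. -/
noncomputable def ww (k j : ℕ) : Eu k := TopologicalSpace.denseSeq (Eu k) j.unpair.1

/-- The vertical strips. -/
def strip (S : Set (ℝ → ℝ)) (j : ℕ) : Set (M S) :=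
  iot '' {p : P | (j : ℝ) < p.1.1⁻¹ ∧ p.1.1⁻¹ < j + 1}

/-- The manifold, an open subset of the product of the surface with a Euclidean space. -/
def XX (S : Set (ℝ → ℝ)) (k : ℕ) : Set (M S × Eu k) :=
  UU S ×ˢ Set.univ ∪ ⋃ j : ℕ, strip S j ×ˢ ball (ww k j) (1 / ((j : ℝ) + 1))

/-- The boxes. -/
def bx (S : Set (ℝ → ℝ)) (k j : ℕ) : Set (M S × Eu k) :=
  box S j ×ˢ ball (ww k j) (1 / ((j : ℝ) + 1))

theorem isOpen_XX (hS : ∀ g ∈ S, Continuous g) : IsOpen (XX S k) := by
  refine ((isOpen_UU hS).prod isOpen_univ).union (isOpen_iUnion fun j => IsOpen.prod ?_ isOpen_ball)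
  exact (isOpenEmbedding_iot hS).isOpenMap _ ((isOpen_lt continuous_const continuous_inv_P).inter
    (isOpen_lt continuous_inv_P continuous_const))

theorem bx_subset (j : ℕ) : bx S k j ⊆ XX S k := by
  rintro ⟨_, v⟩ ⟨⟨p, hp, rfl⟩, hv⟩
  exact Or.inr (mem_iUnion.2 ⟨j, ⟨p, ⟨hp.1, hp.2.1⟩, rfl⟩, hv⟩)

theorem exists_ub (hG : Good S) (a : ℕ → S) : ∃ b : S, ∀ m, Below (a m).1 b.1 := by
  by_contra hc
  push Not at hc
  have hU : Unb (range fun m => (a m).1) := by
    intro x y hx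
    obtain ⟨g, hg, hfr⟩ := hG.2.2 x y hx
    obtain ⟨m, hm⟩ := hc ⟨g, hg⟩
    refine ⟨_, ⟨m, rfl⟩, ?_⟩
    by_cases e : g = (a m).1
    · simpa only [← e] using hfr
    · rcases hG.2.1 hg (a m).2 e with h | h
      · refine (hfr.and_eventually (hx.eventually (h.eventually
          (eventually_gt_atTop (0 : ℝ))))).mono ?_
        rintro j ⟨h3, h4⟩
        simp only at h4 ⊢
        linarith
      · exact absurd h hm
  exact absurd hU.uncountable (not_lt.2 (le_aleph0_iff_set_countable.2 (countable_range _)))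

theorem K3' (hS : ∀ g ∈ S, Continuous g) (hU : Unb S) {O : Set (M S × Eu k)} (hO : IsOpen O)
    (hOc : IsPreconnected O) (hX : O ⊆ XX S k) {v : Eu k}
    (hfr : ∃ᶠ j in atTop, ww k j = v ∧ (O ∩ bx S k j).Nonempty) :
    ∃ a : S, ∀ b : S, Below a.1 b.1 → ∀ t, (lim b t, v) ∈ closure O := by
  obtain ⟨ψ, hψ, hψO⟩ := extraction_of_frequently_atTop hfr
  have h0 : ∀ i, (Prod.fst '' O ∩ box S (ψ i)).Nonempty := fun i => by
    obtain ⟨x, h1, h2⟩ := (hψO i).2
    exact ⟨x.1, ⟨x, h1, rfl⟩, h2.1⟩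
  have h1 : ∀ i : ℕ, ∃ (u y : ℝ) (z : Eu k), (i : ℝ) < u⁻¹ ∧ dist z v ≤ 1 / ((i : ℝ) + 1) ∧
      ∀ p : P, p.1.1 = u → 0 < p.1.2 → y < -Real.log p.1.2 → (iot p, z) ∈ O := by
    intro i
    obtain ⟨p, hp1, hp2, hp3, ⟨_, z⟩, hp4, rfl⟩ := cross hS (hOc.image _ continuousOn_fst)
      (hψ.injective.ne (Nat.succ_ne_self i).symm) (h0 i) (h0 (i + 1))
    have hi : (i : ℝ) ≤ ψ i := Nat.cast_le.2 (hψ.id_le i)
    have hz : dist z v ≤ 1 / ((i : ℝ) + 1) := by
      rcases hX hp4 with h | h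
      · exact absurd (pos_of_iot_mem_UU h.1) (by rw [hp3]; exact lt_irrefl _)
      · obtain ⟨j, ⟨q, hq, e⟩, h2⟩ := mem_iUnion.1 h
        obtain rfl := iot_inj e
        obtain rfl := nat_eq_of_between hp1.le hp2.le hq.1 hq.2
        rw [(hψO i).1] at h2
        exact (mem_ball.1 h2).le.trans (one_div_le_one_div_of_le (by positivity) (by linarith))
    let L : ℝ → M S × Eu k := fun s => (iot ⟨(p.1.1, s), p.2.1, Or.inr ⟨ψ i, hp1, hp2⟩⟩, z)
    have hL : Continuous L := (continuous_iot.comp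
      ((continuous_const.prodMk continuous_id).subtype_mk _)).prodMk continuous_const
    have hL0 : L 0 ∈ O := by
      have : L 0 = (iot p, z) := by
        simp only [L]
        congr 2
        exact Subtype.ext (Prod.ext rfl hp3.symm)
      rwa [this]
    obtain ⟨δ, hδ, hball⟩ := Metric.isOpen_iff.1 (hO.preimage hL) 0 hL0
    refine ⟨p.1.1, -Real.log δ, z, lt_of_le_of_lt hi hp1, hz, ?_⟩
    intro q hq1 hq2 hq3
    have h4 : q.1.2 < δ := (Real.log_lt_log_iff hq2 hδ).1 (by linarith)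
    have h5 : L q.1.2 ∈ O := hball (by simpa [Real.dist_eq, abs_of_pos hq2] using h4)
    have : L q.1.2 = (iot q, z) := by
      simp only [L]
      congr 2
      exact Subtype.ext (Prod.ext hq1.symm rfl)
    rwa [this] at h5
  choose u y z hu hz hy using h1
  have hpos : ∀ i, 0 < u i := fun i => inv_pos.1 (lt_of_le_of_lt (Nat.cast_nonneg i) (hu i))
  have hx : Tendsto (fun i => (u i)⁻¹) atTop atTop :=
    tendsto_atTop_mono (fun i => (hu i).le) tendsto_natCast_atTop_atTop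
  have hu0 : Tendsto u atTop (𝓝 0) :=
    (tendsto_inv_atTop_zero.comp hx).congr (fun i => by simp)
  have hz0 : Tendsto z atTop (𝓝 v) := tendsto_iff_dist_tendsto_zero.2
    (squeeze_zero (fun _ => dist_nonneg) hz tendsto_one_div_add_atTop_nhds_zero_nat)
  obtain ⟨g, hg, hfr2⟩ := hU _ y hx
  refine ⟨⟨g, hg⟩, fun b hb t => ?_⟩
  have h2 : Tendsto (fun i => phi b (u i, t)) atTop (𝓝 (lim b t)) := by
    rw [← phi_zero]
    have : Continuous (fun u : ℝ => phi b (u, t)) :=
      (continuous_phi b).comp (continuous_id.prodMk continuous_const)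
    exact (this.tendsto 0).comp hu0
  refine mem_closure_of_frequently_of_tendsto ?_ (h2.prodMk_nhds hz0)
  have h3 := hx.eventually (hb.eventually (eventually_gt_atTop (-t)))
  refine (hfr2.and_eventually h3).mono ?_
  rintro i ⟨h4, h5⟩
  rw [phi_ne b (q := (u i, t)) (hpos i).ne']
  refine hy i _ rfl (Real.exp_pos _) ?_
  simp only [pt, Real.log_exp, gam, abs_of_pos (hpos i)]
  simp only at h5
  linarith

theorem exists_lift {W Z Y : Type} [TopologicalSpace W] [TopologicalSpace Z] [TopologicalSpace Y]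
    {J : Z → Y} (hJ : IsEmbedding J) {g : W → Y} (hg : Continuous g) (h : ∀ w, g w ∈ range J) :
    ∃ g' : W → Z, Continuous g' ∧ ∀ w, J (g' w) = g w := by
  choose g' hg' using h
  exact ⟨g', hJ.continuous_iff.2 (by rwa [show J ∘ g' = g from funext hg']), hg'⟩

theorem no_copy (hG : Good S) (hsm : ∀ a : S, #{b : S | ¬ Below a.1 b.1} < #S) {Z : Type}
    [TopologicalSpace Z] {J F : Z → M S × Eu k} (hJ : IsOpenEmbedding J)
    (hJr : range J = UU S ×ˢ Set.univ) (hF : IsOpenEmbedding F) (hFX : range F ⊆ XX S k)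
    (hd : XX S k ⊆ closure (range F)) : False := by
  have hS : ∀ g ∈ S, Continuous g := fun g hg => (hG.1 g hg).1
  have hU : Unb S := hG.2.2
  have h0 : ℵ₀ < #S := hU.uncountable
  have hpm : ∀ a : S, IsOpenEmbedding (Prod.map (phi a) (id : Eu k → Eu k)) := fun a =>
    (isOpenEmbedding_phi hS a).prodMap IsOpenEmbedding.id
  choose Φ hΦc hΦ using fun a : S => exists_lift hJ.isEmbedding (hpm a).continuous
    (fun q => by rw [hJr]; exact ⟨phi_mem_UU a _, mem_univ _⟩)
  have hΦo : ∀ a, IsOpenEmbedding (Φ a) := fun a =>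
    IsOpenEmbedding.of_comp (Φ a) hJ (by rw [show J ∘ Φ a = _ from funext (hΦ a)]; exact hpm a)
  have hΦ' : ∀ (a : S) (x : Z) (q : ℝ × ℝ), phi a q = (J x).1 → Φ a (q, (J x).2) = x :=
    fun a x q h => hJ.injective (by rw [hΦ]; exact Prod.ext h rfl)
  have hJU : ∀ x, (J x).1 ∈ UU S := fun x => (hJr.subset (mem_range_self x)).1
  have hz : ∀ j : ℕ, ∃ (p : P) (x : Z), (J x).1 = iot p ∧ F x ∈ bx S k j := by
    intro j
    have hbo : IsOpen (bx S k j) := (isOpen_box hS j).prod isOpen_ball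
    obtain ⟨y, hy⟩ : (bx S k j).Nonempty :=
      (box_nonempty j).prod (nonempty_ball.2 (by positivity))
    obtain ⟨_, h1, x, rfl⟩ := mem_closure_iff.1 (hd (bx_subset j hy)) _ hbo hy
    obtain ⟨p, x', hx', e⟩ := (dense_iot.prodMap denseRange_id).exists_mem_open
      (hJ.isOpenMap _ (hbo.preimage hF.continuous)) ⟨_, x, h1, rfl⟩
    exact ⟨p.1, x', congrArg Prod.fst e, hx'⟩
  choose z x hzx hxb using hz
  have hm : ∀ m : ℕ, ∃ (a a' : S) (A : Set (ℝ × ℝ)), Adm A ∧ ∀ b : S, Below a'.1 b.1 → ∀ t,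
      (lim b t, TopologicalSpace.denseSeq (Eu k) m) ∈ closure (F '' (Φ a '' A ×ˢ Set.univ)) := by
    intro m
    obtain ⟨a, A, hA, hfr⟩ := K1 hU (fun i => z (Nat.pair m i))
      (fun i => pos_of_iot_mem_UU (hzx _ ▸ hJU _))
    have ht : Tendsto (Nat.pair m) atTop atTop :=
      tendsto_atTop_mono (Nat.right_le_pair m) tendsto_id
    obtain ⟨a', ha'⟩ := K3' (v := TopologicalSpace.denseSeq (Eu k) m) hS hU
      (hF.isOpenMap _ ((hΦo a).isOpenMap _ (hA.1.prod isOpen_univ)))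
      (((hA.2.1.prod isPreconnected_univ).image _ (hΦc a).continuousOn).image _
        hF.continuous.continuousOn) ((image_subset_range _ _).trans hFX)
      (ht.frequently (hfr.mono (by
        rintro i ⟨q, hq, h⟩
        refine ⟨by simp [ww], _, ⟨_, ⟨(q, _), ⟨hq, mem_univ _⟩,
          hΦ' a (x (Nat.pair m i)) q (h.trans (hzx _).symm)⟩, rfl⟩, hxb _⟩)))
    exact ⟨a, a', A, hA, ha'⟩
  choose a a' A hA ha using hm
  obtain ⟨b₁, hb₁⟩ := exists_ub hG a
  obtain ⟨b₂, hb₂⟩ := exists_ub hG a'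
  have hTV : TT (Prod.fst '' range F) ⊆ {b : S | ¬ Below b₂.1 b.1} ∪
      ⋃ c ∈ {c : S | ¬ Below b₁.1 c.1}, TT (range (Prod.fst ∘ F ∘ Φ c)) := by
    rintro b ⟨t, ⟨_, v⟩, hv, rfl⟩
    by_cases hb : Below b₂.1 b.1
    · right
      obtain ⟨m, w, hw⟩ := (TopologicalSpace.denseRange_denseSeq (Eu k)).exists_mem_open
        (hF.isOpen_range.preimage (Continuous.prodMk_right (lim b t))) ⟨v, hv⟩
      have h2 : w ∈ closure (Φ (a m) '' A m ×ˢ Set.univ) := by
        rw [hF.isInducing.closure_eq_preimage_closure_image, mem_preimage, hw]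
        exact ha m b ((hb₂ m).trans hb) t
      have h3 : (J w).1 ∈ closure (phi (a m) '' A m) := by
        refine map_mem_closure (f := fun w => (J w).1) hJ.continuous.fst h2 ?_
        rintro _ ⟨q, hq, rfl⟩
        exact ⟨q.1, hq.1, (congrArg Prod.fst (hΦ (a m) q)).symm⟩
      have h4 : ∃ c : S, ¬ Below (a m).1 c.1 ∧ (J w).1 ∈ range (phi c) := by
        rcases M_cases (J w).1 with ⟨p, hp⟩ | ⟨c, s, hc⟩
        · refine ⟨a m, not_below_self _, ?_⟩
          rw [hp]
          exact iot_mem_range_phi _ (pos_of_iot_mem_UU (hp ▸ hJU w))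
        · refine ⟨c, fun hac => K2 hS hac (hA m) s (hc ▸ h3), (0, s), ?_⟩
          rw [hc, phi_zero]
      obtain ⟨c, hc, q, hq⟩ := h4
      refine mem_iUnion₂.2 ⟨c, fun h => hc ((hb₁ m).trans h), t, (q, (J w).2), ?_⟩
      simp only [Function.comp, hΦ' c w q hq, hw]
    · exact Or.inl hb
  have hTVs : #(TT (Prod.fst '' range F)) < #S := by
    refine lt_of_le_of_lt (Cardinal.mk_le_mk_of_subset hTV) ?_
    exact small_union h0 (hsm b₂) (small_biUnion h0 (hsm b₁) _
      (fun c => countable_TT hS (continuous_fst.comp (hF.continuous.comp (hΦc c)))))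
  obtain ⟨G0, hG0, hG0'⟩ := exists_lift (W := (Prod.map iot id ⁻¹' range F : Set (P × Eu k)))
    hF.isEmbedding ((continuous_iot.prodMap continuous_id).comp continuous_subtype_val)
    fun w => w.2
  choose G1 hG1 hG1' using fun b : S =>
    exists_lift (W := (Prod.map (phi b) id ⁻¹' range F : Set ((ℝ × ℝ) × Eu k)))
      hF.isEmbedding ((hpm b).continuous.comp continuous_subtype_val) fun w => w.2
  have hall : (univ : Set S) ⊆ TT (range (Prod.fst ∘ J ∘ G0)) ∪
      ⋃ b ∈ TT (Prod.fst '' range F), TT (range (Prod.fst ∘ J ∘ G1 b)) := by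
    intro c _
    obtain ⟨w, hw⟩ : (lim c 0, (0 : Eu k)) ∈ range J := hJr ▸ ⟨lim_mem_UU c 0, mem_univ _⟩
    rcases M_cases (F w).1 with ⟨p, hp⟩ | ⟨b, s, hb⟩
    · have e : F w = Prod.map iot id (p, (F w).2) := Prod.ext hp rfl
      refine Or.inl ⟨0, ⟨(p, (F w).2), w, e⟩, ?_⟩
      have : G0 ⟨(p, (F w).2), w, e⟩ = w := hF.injective ((hG0' _).trans e.symm)
      simp only [Function.comp, this, hw]
    · have e : F w = Prod.map (phi b) id ((0, s), (F w).2) :=
        Prod.ext (hb.trans (phi_zero b s).symm) rfl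
      refine Or.inr (mem_iUnion₂.2 ⟨b, ⟨s, F w, mem_range_self w, hb⟩, 0,
        ⟨((0, s), (F w).2), w, e⟩, ?_⟩)
      have : G1 b ⟨((0, s), (F w).2), w, e⟩ = w := hF.injective ((hG1' b _).trans e.symm)
      simp only [Function.comp, this, hw]
  have hlt := lt_of_le_of_lt (Cardinal.mk_le_mk_of_subset hall) (small_union h0
    (lt_of_le_of_lt (le_aleph0_iff_set_countable.2
      (countable_TT hS (continuous_fst.comp (hJ.continuous.comp hG0)))) h0)
    (small_biUnion h0 hTVs _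
      (fun b => countable_TT hS (continuous_fst.comp (hJ.continuous.comp (hG1 b))))))
  rw [Cardinal.mk_univ] at hlt
  exact lt_irrefl _ hlt

end Pool.Agent.Lib.MP_034e58_gt.Th
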