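import Pool.Agent.Lib.MP_034e58_gt.Th.Defs
import Pool.Agent.Lib.MP_034e58_gt.Chain

/-! An unbounded chain of the least possible size. -/

namespace Pool.Agent.Lib.MP_034e58_gt.Th

open Set Filter Cardinal

/-- Unbounded families of continuous monotone functions. -/
def Fam (C : Set (ℝ → ℝ)) : Prop := (∀ g ∈ C, Continuous g ∧ Monotone g) ∧ Unb C

theorem exists_fam {ι : Type} (h : ¬ Dominated ι) : ∃ C, Fam C ∧ #C ≤ #ι := by
  unfold Dominated at h
  push Not at h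
  obtain ⟨F, hF⟩ := h
  choose g h1 h2 h3 using fun i => exists_dominating fun k => (F i k : ℝ)
  refine ⟨range g, ⟨?_, ?_⟩, mk_range_le⟩
  · rintro _ ⟨i, rfl⟩; exact ⟨h1 i, h2 i⟩
  · by_contra hU
    obtain ⟨f, -, -, hf⟩ := exists_bound _ (by rintro _ ⟨i, rfl⟩; exact h2 i) hU
    obtain ⟨i, hi⟩ := hF fun k => ⌈f k⌉₊
    obtain ⟨k, h4, h5⟩ := (hi.and_eventually (tendsto_natCast_atTop_atTop.eventually
      ((hf _ ⟨i, rfl⟩).eventually (eventually_gt_atTop (0 : ℝ))))).exists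
    have h6 : (⌈f k⌉₊ : ℝ) < F i k := Nat.cast_lt.2 h4
    linarith [Nat.le_ceil (f k), h3 i k k le_rfl]

theorem exists_scale_le {ι : Type} (h : ¬ Dominated ι) : ∃ S : Set (ℝ → ℝ), Good S ∧
    (∀ a : S, #{b : S | ¬ Below a.1 b.1} < #S) ∧ #S ≤ #ι := by
  classical
  obtain ⟨C₀, hC₀, hle⟩ := exists_fam h
  obtain ⟨C, hC, hmin⟩ := (InvImage.wf (fun C : Set (ℝ → ℝ) => #C) Cardinal.lt_wf).has_min
    {C | Fam C} ⟨C₀, hC₀⟩
  have hmin' : ∀ D, Fam D → #C ≤ #D := fun D hD => not_lt.1 (hmin D hD)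
  have hC' : Fam C := hC
  obtain ⟨r, hr, hord⟩ := Cardinal.exists_ord_eq C
  have hinf : ℵ₀ ≤ #C := hC'.2.uncountable.le
  have hlt : ∀ a : C, #{y // r y a} < #C := fun a => by
    have := Cardinal.card_typein_lt a hord
    rwa [Ordinal.card_typein] at this
  have hone : (1 : Cardinal) < #C := lt_of_lt_of_le Cardinal.one_lt_aleph0 hinf
  let P := {g : ℝ → ℝ // Continuous g ∧ Monotone g}
  have hstep : ∀ (a : C) (f : ∀ b, r b a → P), ∃ g : P, Below a.1 g.1 ∧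
      ∀ b hb, Below (f b hb).1 g.1 := by
    intro a f
    let D : Set (ℝ → ℝ) := insert a.1 (range fun b : {y // r y a} => (f b.1 b.2).1)
    have hD : ∀ g ∈ D, Continuous g ∧ Monotone g := by
      rintro g (rfl | ⟨b, rfl⟩)
      · exact hC'.1 _ a.2
      · exact (f b.1 b.2).2
    have hD' : ¬ Unb D := fun hU => by
      refine absurd (hmin' D ⟨hD, hU⟩) (not_le.2 (lt_of_le_of_lt Cardinal.mk_insert_le ?_))
      exact Cardinal.add_lt_of_lt hinf (lt_of_le_of_lt mk_range_le (hlt a)) hone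
    obtain ⟨g, h1, h2, h3⟩ := exists_bound D (fun g hg => (hD g hg).2) hD'
    exact ⟨⟨g, h1, h2⟩, h3 _ (Or.inl rfl), fun b hb => h3 _ (Or.inr ⟨⟨b, hb⟩, rfl⟩)⟩
  choose st hst hst' using hstep
  let H : C → P := hr.wf.fix st
  have hH : ∀ a, H a = st a fun b _ => H b := fun a => hr.wf.fix_eq st a
  have h1 : ∀ a : C, Below a.1 (H a).1 := fun a => by rw [hH]; exact hst _ _
  have h2 : ∀ a b : C, r b a → Below (H b).1 (H a).1 := fun a b hb => by
    rw [hH a]; exact hst' a (fun b _ => H b) b hb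
  let S : Set (ℝ → ℝ) := range fun a => (H a).1
  have hS : Fam S := by
    refine ⟨by rintro _ ⟨a, rfl⟩; exact (H a).2, fun x y hx => ?_⟩
    obtain ⟨g, hg, hfr⟩ := hC'.2 x y hx
    refine ⟨_, ⟨⟨g, hg⟩, rfl⟩, ?_⟩
    refine (hfr.and_eventually (hx.eventually ((h1 ⟨g, hg⟩).eventually
      (eventually_gt_atTop (0 : ℝ))))).mono ?_
    rintro j ⟨h3, h4⟩
    simp only at h4 ⊢
    linarith
  refine ⟨S, ⟨hS.1, ?_, hS.2⟩, ?_, mk_range_le.trans ((hmin' _ hC₀).trans hle)⟩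
  · rintro _ ⟨a, rfl⟩ _ ⟨b, rfl⟩ hne
    rcases trichotomous_of r a b with h3 | rfl | h3
    · exact Or.inl (h2 b a h3)
    · exact absurd rfl hne
    · exact Or.inr (h2 a b h3)
  · rintro ⟨_, a, rfl⟩
    refine lt_of_lt_of_le ?_ (hmin' S hS)
    have h3 : #(insert a {y | r y a} : Set C) < #C :=
      lt_of_le_of_lt Cardinal.mk_insert_le (Cardinal.add_lt_of_lt hinf (hlt a) hone)
    refine lt_of_le_of_lt ?_ (lt_of_le_of_lt
      (mk_image_le (f := fun c : C => (⟨(H c).1, c, rfl⟩ : S))) h3)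
    refine mk_le_mk_of_subset ?_
    rintro ⟨_, b, rfl⟩ hb
    refine ⟨b, ?_, rfl⟩
    rcases trichotomous_of r b a with h4 | h4 | h4
    · exact Or.inr h4
    · exact Or.inl h4
    · exact absurd (h2 b a h4) hb

end Pool.Agent.Lib.MP_034e58_gt.Th
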