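import Pool.Agent.Lib.MP_034e58_gt.Th.One
import Pool.Agent.Lib.MP_034e58_gt.Th.Scale
import Pool.Agent.Lib.MP_034e58_gt.Th.Neg

/-! The threshold theorem. -/

namespace Pool.Agent.Lib.MP_034e58_gt.Th

open Set Filter Topology Metric

variable {S : Set (ℝ → ℝ)} {k : ℕ}

theorem exists_nhd {n : ℕ} {X : Type} [TopologicalSpace X] (x : X)
    (e : OpenPartialHomeomorph X (Eu n)) (hx : x ∈ e.source) : ∃ W, IsChart n W ∧ x ∈ W := by
  obtain ⟨r, hr, hb⟩ := Metric.isOpen_iff.1 e.open_target (e x) (e.map_source hx)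
  let b : OpenPartialHomeomorph (Eu n) (Eu n) := OpenPartialHomeomorph.univBall (e x) r
  have h1 : b.source = univ := OpenPartialHomeomorph.univBall_source _ _
  have h2 : b.target = Metric.ball (e x) r := OpenPartialHomeomorph.univBall_target _ hr
  have h3 : (b.trans e.symm).source = univ := by
    rw [OpenPartialHomeomorph.trans_source, h1, univ_inter, OpenPartialHomeomorph.symm_source]
    exact eq_univ_of_forall fun q => hb (h2 ▸ b.map_source (h1 ▸ mem_univ q))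
  refine ⟨range (b.trans e.symm), isChart_range ((b.trans e.symm).isOpenEmbedding h3), 0, ?_⟩
  have h5 : b 0 = e x := OpenPartialHomeomorph.univBall_apply_zero _ _
  rw [OpenPartialHomeomorph.coe_trans, Function.comp_apply, h5, e.left_inv hx]

theorem isPreconnected_UU (hne : S.Nonempty) : IsPreconnected (UU S) := by
  let p0 : P := ⟨(1, 1), one_ne_zero, Or.inl one_pos⟩
  have := hne.to_subtype
  exact isPreconnected_iUnion ⟨iot p0, mem_iInter.2 fun a => iot_mem_range_phi a one_pos⟩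
    fun a => isPreconnected_range (continuous_phi a)

theorem isConnected_XX (hne : S.Nonempty) : IsConnected (XX S k) := by
  obtain ⟨g, hg⟩ := id hne
  have hU : IsPreconnected (UU S ×ˢ (univ : Set (Eu k))) :=
    (isPreconnected_UU hne).prod isPreconnected_univ
  have h0 : (lim ⟨g, hg⟩ 0, (0 : Eu k)) ∈ UU S ×ˢ (univ : Set (Eu k)) :=
    ⟨lim_mem_UU _ _, mem_univ _⟩
  refine ⟨⟨_, Or.inl h0⟩, isPreconnected_of_forall (lim ⟨g, hg⟩ 0, 0) ?_⟩
  rintro ⟨_, v⟩ (hy | hy)
  · exact ⟨_, subset_union_left, h0, hy, hU⟩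
  · obtain ⟨j, ⟨p, hp, rfl⟩, hv⟩ := mem_iUnion.1 hy
    let L : ℝ → M S × Eu k := fun s => (iot ⟨(p.1.1, s), p.2.1, Or.inr ⟨j, hp⟩⟩, v)
    have hL : Continuous L := (continuous_iot.comp
      ((continuous_const.prodMk continuous_id).subtype_mk _)).prodMk continuous_const
    refine ⟨UU S ×ˢ univ ∪ range L, union_subset subset_union_left ?_, Or.inl h0,
      Or.inr ⟨p.1.2, rfl⟩, IsPreconnected.union (L 1) ?_ ⟨1, rfl⟩ hU (isPreconnected_range hL)⟩
    · rintro _ ⟨s, rfl⟩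
      exact Or.inr (mem_iUnion.2 ⟨j, ⟨⟨(p.1.1, s), p.2.1, Or.inr ⟨j, hp⟩⟩, hp, rfl⟩, hv⟩)
    · exact ⟨mem_iUnion.2 ⟨⟨g, hg⟩, iot_mem_range_phi _ one_pos⟩, mem_univ _⟩

theorem isMfd_XX (hG : Good S) (hne : S.Nonempty) : IsMfd (2 + k) (XX S k) := by
  have hS : ∀ g ∈ S, Continuous g := fun g hg => (hG.1 g hg).1
  have := t2_M hS hG.2.1
  have := separable_M (S := S)
  have hv := (isOpen_XX (k := k) hS).isOpenEmbedding_subtypeVal
  refine ⟨inferInstance, isConnected_iff_connectedSpace.1 (isConnected_XX hne),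
    hv.separableSpace, fun x => ?_⟩
  obtain ⟨e, he⟩ := exists_chart hS x.1.1
  have : Nonempty (XX S k) := ⟨x⟩
  refine exists_nhd x (((hv.toOpenPartialHomeomorph _).trans
    (e.prod (OpenPartialHomeomorph.refl (Eu k)))).trans
    (EuclideanSpace.finAddEquivProd (𝕜 := ℝ) (n := 2) (m := k)).symm.toHomeomorph.toOpenPartialHomeomorph)
    ?_
  simpa using he

theorem exists_counter {n : ℕ} (hn : 2 ≤ n) {ι : Type} (h : ¬ Dominated ι) :
    ∃ (X : Type) (_ : TopologicalSpace X), IsMfd n X ∧ ∃ c : ι → Set X, (∀ i, IsChart n (c i)) ∧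
      IsConnected (⋃ i, c i) ∧ ¬ DenseCopy (⋃ i, c i) := by
  obtain ⟨k, rfl⟩ := Nat.exists_eq_add_of_le hn
  obtain ⟨S, hG, hsm, ⟨f⟩⟩ := exists_scale_le h
  have hS : ∀ g ∈ S, Continuous g := fun g hg => (hG.1 g hg).1
  obtain ⟨g, hg, -⟩ := hG.2.2 (fun n => n) (fun n => n) tendsto_natCast_atTop_atTop
  have : Nonempty S := ⟨⟨g, hg⟩⟩
  have hσ : Function.Surjective (Function.invFun f) := Function.invFun_surjective f.injective
  have hv := (isOpen_XX (k := k) hS).isOpenEmbedding_subtypeVal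
  let θ : Eu (2 + k) ≃ₜ (ℝ × ℝ) × Eu k :=
    (EuclideanSpace.finAddEquivProd (𝕜 := ℝ) (n := 2) (m := k)).toHomeomorph.trans
      (((EuclideanSpace.equiv (Fin 2) ℝ).toHomeomorph.trans
        (Homeomorph.finTwoArrow (X := ℝ))).prodCongr (Homeomorph.refl _))
  have hpm : ∀ a : S, IsOpenEmbedding (Prod.map (phi a) (id : Eu k → Eu k) ∘ θ) := fun a =>
    ((isOpenEmbedding_phi hS a).prodMap IsOpenEmbedding.id).comp θ.isOpenEmbedding
  choose Ψ hΨc hΨ using fun a : S => exists_lift hv.isEmbedding (hpm a).continuous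
    (fun q => by rw [Subtype.range_val]; exact Or.inl ⟨phi_mem_UU a _, mem_univ _⟩)
  have hΨo : ∀ a, IsOpenEmbedding (Ψ a) := fun a =>
    IsOpenEmbedding.of_comp (Ψ a) hv
      (by rw [show Subtype.val ∘ Ψ a = _ from funext (hΨ a)]; exact hpm a)
  have hU : ⋃ i, range (Ψ (Function.invFun f i)) = Subtype.val ⁻¹' (UU S ×ˢ univ) := by
    refine subset_antisymm (iUnion_subset fun i => ?_) fun x hx => ?_
    · rintro _ ⟨q, rfl⟩
      rw [mem_preimage, hΨ]
      exact ⟨phi_mem_UU _ _, mem_univ _⟩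
    · obtain ⟨a, q, hq⟩ := mem_iUnion.1 hx.1
      obtain ⟨i, rfl⟩ := hσ a
      refine mem_iUnion.2 ⟨i, θ.symm (q, x.1.2), Subtype.ext ?_⟩
      rw [hΨ, Function.comp_apply, θ.apply_symm_apply]
      exact Prod.ext hq rfl
  have hI : Subtype.val '' (Subtype.val ⁻¹' (UU S ×ˢ univ) : Set (XX S k)) = UU S ×ˢ univ :=
    image_preimage_eq_of_subset (by rw [Subtype.range_val]; exact subset_union_left)
  refine ⟨XX S k, inferInstance, isMfd_XX hG ⟨g, hg⟩, fun i => range (Ψ (Function.invFun f i)),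
    fun i => isChart_range (hΨo _), ?_, ?_⟩
  · rw [hU]
    refine ⟨⟨⟨(lim ⟨g, hg⟩ 0, 0), Or.inl ⟨lim_mem_UU _ _, mem_univ _⟩⟩,
      lim_mem_UU _ _, mem_univ _⟩, ?_⟩
    rw [← hv.isInducing.isPreconnected_image, hI]
    exact (isPreconnected_UU ⟨g, hg⟩).prod isPreconnected_univ
  · rw [hU]
    rintro ⟨V, hV, hd, ⟨φ⟩⟩
    have ho : IsOpen (Subtype.val ⁻¹' (UU S ×ˢ univ) : Set (XX S k)) :=
      ((isOpen_UU hS).prod isOpen_univ).preimage continuous_subtype_val
    refine no_copy hG hsm (hv.comp ho.isOpenEmbedding_subtypeVal)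
      (by rw [range_comp, Subtype.range_val, hI])
      (hv.comp (hV.isOpenEmbedding_subtypeVal.comp φ.isOpenEmbedding)) ?_ fun x hx => ?_
    · rintro _ ⟨z, rfl⟩
      exact (φ z).1.2
    · rw [range_comp, φ.surjective.range_comp, Subtype.range_val]
      exact image_closure_subset_closure_image continuous_subtype_val ⟨⟨x, hx⟩, hd _, rfl⟩

theorem main (n : ℕ) (ι : Type) : List.TFAE [n ≤ 1 ∨ Dominated ι,
    ∀ (X : Type) [TopologicalSpace X], IsMfd n X → ∀ c : ι → Set X, (∀ i, IsChart n (c i)) →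
      (⋃ i, c i).Nonempty → DenseCopy (⋃ i, c i),
    ∀ (X : Type) [TopologicalSpace X], IsMfd n X → ∀ c : ι → Set X, (∀ i, IsChart n (c i)) →
      IsConnected (⋃ i, c i) → DenseCopy (⋃ i, c i)] := by
  tfae_have 1 → 2 := by
    rintro (h | h) X _ hX c hc hne
    · exact hX.denseCopy_low h c hc hne
    · exact hX.denseCopy h c hc hne
  tfae_have 2 → 3 := fun h X _ hX c hc hne => h X hX c hc hne.1
  tfae_have 3 → 1 := by
    intro h
    by_contra hc
    rw [not_or, not_le] at hc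
    obtain ⟨X, _, hX, c, h1, h2, h3⟩ := exists_counter hc.1 hc.2
    exact h3 (h X hX c h1 h2)
  tfae_finish

end Pool.Agent.Lib.MP_034e58_gt.Th
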