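import Pool.Agent.Lib.MP_034e58_gt.Th.Pos

/-! Dimensions zero and one. -/

namespace Pool.Agent.Lib.MP_034e58_gt.Th

open Set Filter Topology Metric

variable {n : ℕ} {M : Type} [TopologicalSpace M]

theorem ends [T2Space M] {e f : ℝ → M} (he : IsOpenEmbedding e) (hf : IsOpenEmbedding f)
    (hd : DenseRange e) (h0 : f 0 ∉ range e) :
    Tendsto e atTop (𝓝 (f 0)) ∨ Tendsto e atBot (𝓝 (f 0)) := by
  have key : ∀ r : ℝ, 0 < r → (∀ᶠ t in atTop, e t ∈ f '' ball 0 r) ∨
      ∀ᶠ t in atBot, e t ∈ f '' ball 0 r := by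
    intro r hr
    have hJ : IsClosed (f '' closedBall 0 r) :=
      ((isCompact_closedBall _ _).image hf.continuous).isClosed
    have hI : IsOpen (f '' ball 0 r) := hf.isOpenMap _ isOpen_ball
    have hB : (e ⁻¹' {f (-r), f r}).Finite := (toFinite _).preimage he.injective.injOn
    obtain ⟨T, hT⟩ := hB.isBounded.subset_closedBall 0
    have h1 : ∀ s : Set ℝ, IsPreconnected s → (∀ t ∈ s, T < |t|) →
        s ⊆ e ⁻¹' (f '' ball 0 r) ∨ s ⊆ e ⁻¹' (f '' closedBall 0 r)ᶜ := by
      intro s hs hs'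
      refine hs.subset_or_subset (hI.preimage he.continuous)
        (hJ.isOpen_compl.preimage he.continuous) ?_ fun t ht => ?_
      · exact disjoint_left.2 fun t h1 h2 => h2 (image_mono ball_subset_closedBall h1)
      · by_cases h2 : e t ∈ f '' closedBall 0 r
        · obtain ⟨u, hu, hut⟩ := h2
          refine Or.inl ⟨u, ?_, hut⟩
          rw [mem_closedBall, Real.dist_eq, sub_zero] at hu
          rw [mem_ball, Real.dist_eq, sub_zero]
          refine lt_of_le_of_ne hu fun h3 => ?_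
          have h4 : t ∈ e ⁻¹' {f (-r), f r} := by
            rw [mem_preimage, ← hut]
            rcases (abs_eq hr.le).1 h3 with rfl | rfl
            · exact Or.inr rfl
            · exact Or.inl rfl
          have h5 := hT h4
          rw [mem_closedBall, Real.dist_eq, sub_zero] at h5
          linarith [hs' t ht]
        · exact Or.inr h2
    rcases h1 (Ioi T) isPreconnected_Ioi (fun t ht => lt_of_lt_of_le ht (le_abs_self t)) with
      h2 | h2
    · exact Or.inl ((eventually_gt_atTop T).mono fun t ht => h2 ht)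
    rcases h1 (Iio (-T)) isPreconnected_Iio
      (fun t ht => lt_of_lt_of_le (lt_neg.1 ht) (neg_le_abs t)) with h3 | h3
    · exact Or.inr ((eventually_lt_atBot (-T)).mono fun t ht => h3 ht)
    exfalso
    have h4 : IsClosed (e '' Icc (-T) T) := (isCompact_Icc.image he.continuous).isClosed
    have h5 : f '' ball 0 r ∩ range e ⊆ e '' Icc (-T) T := by
      rintro _ ⟨h6, t, rfl⟩
      have h7 := image_mono ball_subset_closedBall h6
      exact ⟨t, ⟨not_lt.1 fun h => h3 h h7, not_lt.1 fun h => h2 h h7⟩, rfl⟩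
    exact h0 (image_subset_range _ _ (closure_minimal h5 h4
      (Dense.open_subset_closure_inter hd hI ⟨0, mem_ball_self hr, rfl⟩)))
  have hb : (𝓝 (f 0)).HasBasis (fun r : ℝ => 0 < r) fun r => f '' ball 0 r := by
    rw [← hf.map_nhds_eq]; exact nhds_basis_ball.map f
  rw [hb.tendsto_right_iff, hb.tendsto_right_iff]
  by_contra hc
  push Not at hc
  obtain ⟨⟨r, hr, h1⟩, s, hs, h2⟩ := hc
  rcases key (min r s) (lt_min hr hs) with h | h
  · obtain ⟨t, h3, h4⟩ := (h1.and_eventually h).exists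
    exact h3 (image_mono (ball_subset_ball (min_le_left _ _)) h4)
  · obtain ⟨t, h3, h4⟩ := (h2.and_eventually h).exists
    exact h3 (image_mono (ball_subset_ball (min_le_right _ _)) h4)

theorem IsMfd.finite_compl (hM : IsMfd n M) (hn : n ≤ 1) :
    ∃ e : Eu n → M, IsOpenEmbedding e ∧ (range e)ᶜ.Finite := by
  have := hM.1
  obtain ⟨x⟩ := hM.2.1.toNonempty
  obtain ⟨W, hW, hx⟩ := hM.2.2.2 x
  obtain ⟨V, hV, hd, ⟨g⟩⟩ := hM.denseCopy dominated_nat (fun _ => W) (fun _ => hW)
    ⟨x, mem_iUnion.2 ⟨0, hx⟩⟩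
  rw [iUnion_const] at g
  obtain ⟨w⟩ := hW.2
  obtain ⟨e, he, rfl⟩ := IsChart.exists_emb (n := n) ⟨hV, ⟨g.symm.trans w⟩⟩
  refine ⟨e, he, ?_⟩
  rcases Nat.le_one_iff_eq_zero_or_eq_one.1 hn with rfl | rfl
  · have : Finite (Eu 0) := Finite.of_subsingleton
    rw [← (finite_range e).isClosed.closure_eq, hd.closure_eq, compl_univ]
    exact finite_empty
  · let φ : Eu 1 ≃ₜ ℝ :=
      (EuclideanSpace.equiv (Fin 1) ℝ).toHomeomorph.trans (Homeomorph.funUnique (Fin 1) ℝ)
    have he' := he.comp φ.symm.isOpenEmbedding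
    have hr : range (e ∘ φ.symm) = range e := φ.symm.surjective.range_comp e
    have h1 : ∀ l : Filter ℝ, l.NeBot → {y | Tendsto (e ∘ φ.symm) l (𝓝 y)}.Finite := fun l _ =>
      Set.Subsingleton.finite fun a ha b hb => tendsto_nhds_unique ha hb
    refine ((h1 atTop inferInstance).union (h1 atBot inferInstance)).subset fun y hy => ?_
    obtain ⟨f, p, hf, rfl⟩ := hM.exists_emb y
    have hf' := (hf.comp φ.symm.isOpenEmbedding).comp (Homeomorph.addRight (φ p)).isOpenEmbedding
    have h2 : ((f ∘ φ.symm) ∘ Homeomorph.addRight (φ p)) 0 = f p := by simp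
    have := ends he' hf' (by rw [DenseRange, hr]; exact hd) (by rw [h2, hr]; exact hy)
    rwa [h2] at this

theorem IsMfd.denseCopy_low (hM : IsMfd n M) (hn : n ≤ 1) {ι : Type} (c : ι → Set M)
    (hc : ∀ i, IsChart n (c i)) (hne : (⋃ i, c i).Nonempty) : DenseCopy (⋃ i, c i) := by
  obtain ⟨e, he, hf⟩ := hM.finite_compl hn
  have h1 : IsLindelof (⋃ i, c i) := by
    rw [← inter_union_compl (⋃ i, c i) (range e), ← image_preimage_eq_inter_range]
    exact ((HereditarilyLindelofSpace.isLindelof _).image he.continuous).union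
      (hf.inter_of_right _).isCompact.isLindelof
  obtain ⟨r, hr, hs⟩ := h1.elim_countable_subcover c (fun i => (hc i).1) subset_rfl
  obtain ⟨x, hx⟩ := id hne
  obtain ⟨i, hi, -⟩ := mem_iUnion₂.1 (hs hx)
  obtain ⟨f, rfl⟩ := hr.exists_eq_range ⟨i, hi⟩
  have h2 : ⋃ k, c (f k) = ⋃ i, c i :=
    subset_antisymm (iUnion_subset fun k => subset_iUnion c _) (by rwa [biUnion_range] at hs)
  rw [← h2] at hne ⊢
  exact hM.denseCopy dominated_nat _ (fun k => hc _) hne

end Pool.Agent.Lib.MP_034e58_gt.Th
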