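import Pool.Agent.Lib.MP_034e58_gt.Th.Hom

/-! Below the bounding number a dense copy exists. -/

namespace Pool.Agent.Lib.MP_034e58_gt.Th

open Set Filter Topology Metric

variable {n : ℕ} {M : Type} [TopologicalSpace M]

theorem dominated_nat : Dominated ℕ := fun F =>
  ⟨fun k => ∑ i ∈ Finset.range (k + 1), F i k, fun i => by
    filter_upwards [eventually_ge_atTop i] with k hk
    exact Finset.single_le_sum (f := fun j => F j k) (fun _ _ => Nat.zero_le _)
      (Finset.mem_range.2 (by omega))⟩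

theorem Dominated.prod {ι : Type} (h : Dominated ι) : Dominated (ι × ℕ) := by
  intro F
  choose g hg using fun i => dominated_nat fun m => F (i, m)
  obtain ⟨G, hG⟩ := h g
  refine ⟨G, fun j => ?_⟩
  filter_upwards [hg j.1 j.2, hG j.1] with k h1 h2
  exact h1.trans h2

theorem Dominated.list {ι : Type} (h : Dominated ι) (F : ι → List ℕ → ℕ) :
    ∃ G : List ℕ → ℕ, ∀ i, ∀ᶠ σ in cofinite, F i σ ≤ G σ := by
  let e : List ℕ ≃ ℕ := Denumerable.eqv (List ℕ)
  obtain ⟨g, hg⟩ := h fun i k => F i (e.symm k)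
  refine ⟨fun σ => g (e σ), fun i => ?_⟩
  have h1 : Tendsto e cofinite atTop := by
    rw [← Nat.cofinite_eq_atTop]; exact e.injective.tendsto_cofinite
  filter_upwards [h1.eventually (hg i)] with σ hσ
  simpa using hσ

/-- The limit of a locally eventually constant sequence of homeomorphisms. -/
theorem exists_limit {U : Set M} (H : ℕ → M ≃ₜ M)
    (h : ∀ x ∈ U, ∃ N ∈ 𝓝 x, ∀ᶠ k in atTop, ∀ z ∈ N, H (k + 1) z = H k z) (hU : IsOpen U) :
    ∃ e : U → M, IsOpenEmbedding e ∧ ∀ x : U, ∀ᶠ k in atTop, H k x = e x := by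
  have h1 : ∀ x ∈ U, ∃ N ∈ 𝓝 x, ∃ k₀ : ℕ, ∀ k ≥ k₀, ∀ z ∈ N, H k z = H k₀ z := by
    intro x hx
    obtain ⟨N, hN, hk⟩ := h x hx
    obtain ⟨k₀, hk₀⟩ := eventually_atTop.1 hk
    refine ⟨N, hN, k₀, fun k hk => ?_⟩
    induction k, hk using Nat.le_induction with
    | base => exact fun _ _ => rfl
    | succ k hk ih => exact fun z hz => (hk₀ k hk z hz).trans (ih z hz)
  choose! N hN k₀ hk₀ using h1
  have h2 : ∀ x : U, ∀ᶠ k in atTop, H k x = H (k₀ x) x := fun x =>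
    (eventually_ge_atTop (k₀ x)).mono fun k hk => hk₀ x x.2 k hk x (mem_of_mem_nhds (hN x x.2))
  have h3 : ∀ x : U, (fun y : U => H (k₀ y) y) =ᶠ[𝓝 x] fun y : U => H (k₀ x) y := by
    intro x
    filter_upwards [continuous_subtype_val.continuousAt.preimage_mem_nhds (hN x x.2)] with y hy
    obtain ⟨k, h4, h5⟩ := ((h2 y).and (eventually_ge_atTop (k₀ x))).exists
    rw [← h4, hk₀ x x.2 k h5 y hy]
  have h4 : ∀ k, IsOpenEmbedding fun y : U => H k y := fun k =>
    (H k).isOpenEmbedding.comp hU.isOpenEmbedding_subtypeVal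
  refine ⟨fun y => H (k₀ y) y, ?_, h2⟩
  refine isOpenEmbedding_iff_continuous_injective_isOpenMap.2 ⟨?_, ?_, ?_⟩
  · exact continuous_iff_continuousAt.2 fun x => (h4 _).continuous.continuousAt.congr (h3 x).symm
  · intro x y hxy
    obtain ⟨k, h5, h6⟩ := ((h2 x).and (h2 y)).exists
    exact (h4 k).injective (by simp only [h5, h6]; exact hxy)
  · refine isOpenMap_iff_nhds_le.2 fun x => ?_
    rw [map_congr (h3 x)]
    exact (h4 _).isOpenMap.nhds_le x

/-- One step of the construction. -/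
theorem IsMfd.step (hM : IsMfd n M) {U : Set M} (hU : IsOpen U) (hne : U.Nonempty) (d : M)
    (H : M ≃ₜ M) (F : Set M) : ∃ s : ℕ → (M ≃ₜ M) × Set M,
      (F.Finite → F ⊆ U → ∀ m, (s m).2.Finite ∧ (s m).2 ⊆ U ∧ F ⊆ (s m).2 ∧
        d ∈ (s m).1 '' (s m).2 ∧ ∀ z ∈ F, (s m).1 z = H z) ∧
      ∀ K : Set M, IsCompact K → K ⊆ U → ∀ᶠ m in atTop, ∀ z ∈ K, (s m).1 z = H z := by
  obtain ⟨h, h1, h2⟩ := hM.finger (H.isOpenMap U hU) (hne.image H) d
  have h3 : ∀ K : Set M, IsCompact K → K ⊆ U → ∀ᶠ m in atTop, ∀ z ∈ K, h m (H z) = H z :=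
    fun K hK hKU => (h2 _ (hK.image H.continuous) (image_mono hKU)).mono
      fun m hm z hz => hm _ ⟨z, hz, rfl⟩
  obtain ⟨m₀, hm₀⟩ : ∃ m₀ : ℕ, F.Finite → F ⊆ U → ∀ m ≥ m₀, ∀ z ∈ F, h m (H z) = H z := by
    by_cases hF : F.Finite ∧ F ⊆ U
    · obtain ⟨m₀, hm₀⟩ := eventually_atTop.1 (h3 F hF.1.isCompact hF.2)
      exact ⟨m₀, fun _ _ => hm₀⟩
    · exact ⟨0, fun a b => absurd ⟨a, b⟩ hF⟩
  have h4 : ∀ m, ∃ x ∈ U, h m (H x) = d := fun m => by
    obtain ⟨_, ⟨x, hx, rfl⟩, e⟩ := h1 m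
    exact ⟨x, hx, e⟩
  choose x hx hx' using h4
  refine ⟨fun m => (H.trans (h (m + m₀)), insert (x (m + m₀)) F), fun hF hFU m =>
    ⟨hF.insert _, insert_subset (hx _) hFU, subset_insert _ _, ⟨_, mem_insert _ _, hx' _⟩,
      hm₀ hF hFU _ (Nat.le_add_left _ _)⟩, fun K hK hKU => ?_⟩
  exact (tendsto_add_atTop_nat m₀).eventually (h3 K hK hKU)

theorem IsMfd.denseCopy_of_compact (hM : IsMfd n M) {ι : Type} (hι : Dominated ι) {U : Set M}
    (hU : IsOpen U) (hne : U.Nonempty) (K : ι → Set M) (hK : ∀ i, IsCompact (K i))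
    (hKU : ∀ i, K i ⊆ U) (hc : ∀ x ∈ U, ∃ i, K i ∈ 𝓝 x) : DenseCopy U := by
  have := hM.2.2.1
  have : Nonempty M := ⟨hne.some⟩
  choose s hs hs' using hM.step hU hne
  let d := TopologicalSpace.denseSeq M
  let T : List ℕ → (M ≃ₜ M) × Set M := fun σ => List.rec (Homeomorph.refl M, ∅)
    (fun m τ t => s (d τ.length) t.1 t.2 m) σ
  have hT : ∀ m σ, T (m :: σ) = s (d σ.length) (T σ).1 (T σ).2 m := fun _ _ => rfl
  have hF : ∀ σ, (T σ).2.Finite ∧ (T σ).2 ⊆ U := by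
    intro σ
    induction σ with
    | nil => exact ⟨finite_empty, empty_subset _⟩
    | cons m σ ih =>
      obtain ⟨h1, h2, -⟩ := hs (d σ.length) (T σ).1 (T σ).2 ih.1 ih.2 m
      exact ⟨h1, h2⟩
  choose g hg using fun i σ =>
    eventually_atTop.1 (hs' (d (List.length σ)) (T σ).1 (T σ).2 (K i) (hK i) (hKU i))
  obtain ⟨G, hG⟩ := hι.list g
  let b : ℕ → List ℕ := fun k => Nat.rec [] (fun _ σ => G σ :: σ) k
  have hb : ∀ k, b (k + 1) = G (b k) :: b k := fun _ => rfl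
  have hl : ∀ k, (b k).length = k := by
    intro k
    induction k with
    | zero => rfl
    | succ k ih => rw [hb, List.length_cons, ih]
  have hbi : Function.Injective b := fun j k e => by rw [← hl j, e, hl]
  have hbt : Tendsto b atTop cofinite := by
    rw [← Nat.cofinite_eq_atTop]; exact hbi.tendsto_cofinite
  obtain ⟨e, he, he'⟩ := exists_limit (U := U) (fun k => (T (b k)).1) (fun x hx => by
    obtain ⟨i, hi⟩ := hc x hx
    refine ⟨K i, hi, ?_⟩
    filter_upwards [hbt.eventually (hG i)] with k hk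
    exact hg i (b k) _ hk) hU
  have hstep := fun k => hs (d (b k).length) (T (b k)).1 (T (b k)).2 (hF _).1 (hF _).2 (G (b k))
  refine ⟨range e, he.isOpen_range, ?_, ⟨he.isEmbedding.toHomeomorph⟩⟩
  refine (TopologicalSpace.denseRange_denseSeq M).mono ?_
  rintro _ ⟨k, rfl⟩
  obtain ⟨-, h1, -, ⟨x, hx, hx'⟩, -⟩ := hstep k
  have h2 : ∀ j ≥ k + 1, x ∈ (T (b j)).2 ∧ (T (b j)).1 x = d k := by
    intro j hj
    induction j, hj using Nat.le_induction with
    | base => exact ⟨hx, by rw [hl] at hx'; rw [hb, hT, hl]; exact hx'⟩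
    | succ j hj ih =>
      obtain ⟨-, -, h3, -, h4⟩ := hstep j
      exact ⟨h3 ih.1, (h4 x ih.1).trans ih.2⟩
  obtain ⟨j, h3, h4⟩ := ((he' ⟨x, h1 hx⟩).and (eventually_ge_atTop (k + 1))).exists
  exact ⟨⟨x, h1 hx⟩, h3.symm.trans (h2 j h4).2⟩

theorem IsMfd.denseCopy (hM : IsMfd n M) {ι : Type} (hι : Dominated ι) (c : ι → Set M)
    (hc : ∀ i, IsChart n (c i)) (hne : (⋃ i, c i).Nonempty) : DenseCopy (⋃ i, c i) := by
  choose e he he' using fun i => (hc i).exists_emb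
  refine hM.denseCopy_of_compact hι.prod (isOpen_iUnion fun i => (hc i).1) hne
    (fun j => e j.1 '' closedBall 0 j.2)
    (fun j => (isCompact_closedBall _ _).image (he _).continuous)
    (fun j => (image_subset_range _ _).trans ((he' j.1).subset.trans (subset_iUnion c j.1))) ?_
  intro x hx
  obtain ⟨i, hi⟩ := mem_iUnion.1 hx
  rw [← he' i] at hi
  obtain ⟨p, rfl⟩ := hi
  obtain ⟨m, hm⟩ := exists_nat_gt ‖p‖
  exact ⟨(i, m), (he i).image_mem_nhds.2 (closedBall_mem_nhds_of_mem (by simpa using hm))⟩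

end Pool.Agent.Lib.MP_034e58_gt.Th
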